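import Pool.Agent.Y240.KF.Stm

set_option autoImplicit false

namespace Pool.Agent.Y430.KF

open Finset
open scoped Classical

open Pool.Agent.Y240.KF

section

variable {n : ℕ} (H : SimpleGraph (Fin n))

/-- the closed neighbourhood -/
noncomputable def cl (v : Fin n) : Finset (Fin n) := insert v (H.neighborFinset v)

/-- the cliques with `Δ + 1` vertices -/
noncomputable def CC (Δ : ℕ) : Finset (Finset (Fin n)) :=
  univ.filter fun s => H.IsNClique (Δ + 1) s

theorem mem_CC {Δ : ℕ} {s : Finset (Fin n)} : s ∈ CC H Δ ↔ H.IsNClique (Δ + 1) s := by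
  unfold CC
  rw [mem_filter]
  exact ⟨fun h => h.2, fun h => ⟨mem_univ _, h⟩⟩

theorem cl_eq {Δ : ℕ} (hd : ∀ v, H.degree v ≤ Δ) {s : Finset (Fin n)} (hs : s ∈ CC H Δ)
    {v : Fin n} (hv : v ∈ s) : cl H v = s := by
  rw [mem_CC, SimpleGraph.isNClique_iff] at hs
  have h1 : s.erase v ⊆ H.neighborFinset v := by
    intro w hw
    rw [mem_erase] at hw
    rw [SimpleGraph.mem_neighborFinset]
    exact hs.1 hv hw.2 (Ne.symm hw.1)
  have h2 : (H.neighborFinset v).card ≤ (s.erase v).card := by
    rw [card_erase_of_mem hv, hs.2, SimpleGraph.card_neighborFinset_eq_degree]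
    exact hd v
  have h3 := eq_of_subset_of_card_le h1 h2
  unfold cl
  rw [← h3, insert_erase hv]

theorem mem_cl_self (v : Fin n) : v ∈ cl H v := mem_insert_self _ _

/-- vertices outside of the cliques -/
noncomputable def V2 (Δ : ℕ) : Finset (Fin n) := univ.filter fun v => cl H v ∉ CC H Δ

theorem mem_V2 {Δ : ℕ} {v : Fin n} : v ∈ V2 H Δ ↔ cl H v ∉ CC H Δ := by
  unfold V2
  rw [mem_filter]
  exact ⟨fun h => h.2, fun h => ⟨mem_univ _, h⟩⟩

theorem card_eq {Δ : ℕ} (hd : ∀ v, H.degree v ≤ Δ) :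
    (Δ + 1) * (CC H Δ).card + (V2 H Δ).card = n := by
  have h1 : (univ.filter fun v => cl H v ∈ CC H Δ).card = (Δ + 1) * (CC H Δ).card := by
    rw [card_eq_sum_card_fiberwise (f := fun v => cl H v) (t := CC H Δ)]
    · rw [sum_congr rfl (g := fun _ => Δ + 1), sum_const, smul_eq_mul, mul_comm]
      intro s hs
      have h2 : (univ.filter fun v => cl H v ∈ CC H Δ).filter (fun v => cl H v = s) = s := by
        ext v
        rw [mem_filter, mem_filter]
        constructor
        · rintro ⟨_, rfl⟩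
          exact mem_cl_self H v
        · intro hv
          have h3 := cl_eq H hd hs hv
          exact ⟨⟨mem_univ _, by rw [h3]; exact hs⟩, h3⟩
      rw [h2]
      exact ((SimpleGraph.isNClique_iff _).1 ((mem_CC H).1 hs)).2
    · intro v hv
      exact (mem_filter.1 hv).2
  rw [← h1]
  unfold V2
  rw [card_filter_add_card_filter_not, card_univ, Fintype.card_fin]

end

theorem decomp : StDecomp := by
  intro Δ n H hΔ hd
  set b := (V2 H Δ).card with hb
  let e2 : {x // x ∈ V2 H Δ} ≃ Fin b := (V2 H Δ).equivFin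
  let g : Fin b → Fin n := fun x => (e2.symm x).1
  have hg : Function.Injective g := fun x y h => e2.symm.injective (Subtype.ext h)
  have hg2 : ∀ x, g x ∈ V2 H Δ := fun x => (e2.symm x).2
  refine ⟨(CC H Δ).card, b, H.comap g, card_eq H hd, ?_, ?_, ?_⟩
  · intro x
    refine le_trans ?_ (hd (g x))
    rw [← SimpleGraph.card_neighborFinset_eq_degree, ← SimpleGraph.card_neighborFinset_eq_degree]
    refine card_le_card_of_injOn g ?_ hg.injOn
    intro y hy
    rw [mem_coe, SimpleGraph.mem_neighborFinset] at hy ⊢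
    exact hy
  · intro T hT
    rw [SimpleGraph.isNClique_iff] at hT
    have h1 : T.image g ∈ CC H Δ := by
      rw [mem_CC, SimpleGraph.isNClique_iff]
      refine ⟨?_, ?_⟩
      · intro u hu v hv huv
        rw [coe_image] at hu hv
        obtain ⟨x, hx, rfl⟩ := hu
        obtain ⟨y, hy, rfl⟩ := hv
        exact hT.1 hx hy (fun h => huv (by rw [h]))
      · rw [card_image_of_injective _ hg, hT.2]
    obtain ⟨x, hx⟩ : T.Nonempty := by
      rw [← card_pos, hT.2]
      omega
    have h2 := cl_eq H hd h1 (mem_image_of_mem g hx)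
    have h3 := (mem_V2 H).1 (hg2 x)
    rw [h2] at h3
    exact h3 h1
  · -- positions in the cliques
    have hpos : ∀ s : {s // s ∈ CC H Δ}, ∃ f : Fin n → Fin (Δ + 1), Set.InjOn f s.1 := by
      rintro ⟨s, hs⟩
      have hc := ((SimpleGraph.isNClique_iff _).1 ((mem_CC H).1 hs)).2
      let e := s.equivFinOfCardEq hc
      refine ⟨fun v => if h : v ∈ s then e ⟨v, h⟩ else 0, ?_⟩
      intro u hu v hv huv
      have hu' : u ∈ s := hu
      have hv' : v ∈ s := hv
      simp only [hu', hv', dif_pos] at huv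
      exact congrArg Subtype.val (e.injective huv)
    choose pos hp using hpos
    let f : Fin n → (Fin (CC H Δ).card × Fin (Δ + 1)) ⊕ Fin b := fun v =>
      if h : cl H v ∈ CC H Δ then
        Sum.inl ((CC H Δ).equivFin ⟨cl H v, h⟩, pos ⟨cl H v, h⟩ v)
      else Sum.inr (e2 ⟨v, (mem_V2 H).2 h⟩)
    have hf1 : ∀ v (h : cl H v ∈ CC H Δ),
        f v = Sum.inl ((CC H Δ).equivFin ⟨cl H v, h⟩, pos ⟨cl H v, h⟩ v) := fun v h => dif_pos h
    have hf2 : ∀ v (h : cl H v ∉ CC H Δ), f v = Sum.inr (e2 ⟨v, (mem_V2 H).2 h⟩) :=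
      fun v h => dif_neg h
    have key : ∀ u v (hu : cl H u ∈ CC H Δ) (hv : cl H v ∈ CC H Δ), cl H u = cl H v →
        pos ⟨cl H u, hu⟩ u = pos ⟨cl H v, hv⟩ v → u = v := by
      intro u v hu hv h1 h2
      have h3 : (⟨cl H u, hu⟩ : {s // s ∈ CC H Δ}) = ⟨cl H v, hv⟩ := Subtype.ext h1
      rw [h3] at h2
      refine hp ⟨cl H v, hv⟩ ?_ (mem_cl_self H v) h2
      show u ∈ ((cl H v : Finset (Fin n)) : Set (Fin n))
      rw [← h1]
      exact mem_cl_self H u
    have hinj : Function.Injective f := by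
      intro u v huv
      by_cases hu : cl H u ∈ CC H Δ
      · by_cases hv : cl H v ∈ CC H Δ
        · rw [hf1 u hu, hf1 v hv] at huv
          have h1 := Sum.inl.inj huv
          rw [Prod.mk.injEq] at h1
          have h2 := congrArg Subtype.val ((CC H Δ).equivFin.injective h1.1)
          exact key u v hu hv h2 h1.2
        · rw [hf1 u hu, hf2 v hv] at huv
          exact absurd huv Sum.inl_ne_inr
      · by_cases hv : cl H v ∈ CC H Δ
        · rw [hf2 u hu, hf1 v hv] at huv
          exact absurd huv Sum.inr_ne_inl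
        · rw [hf2 u hu, hf2 v hv] at huv
          exact congrArg Subtype.val (e2.injective (Sum.inr.inj huv))
    have hadj : ∀ u v, H.Adj u v → (tK (CC H Δ).card (Δ + 1) ⊕g H.comap g).Adj (f u) (f v) := by
      intro u v huv
      have hmem : v ∈ cl H u := by
        unfold cl
        rw [mem_insert, SimpleGraph.mem_neighborFinset]
        exact Or.inr huv
      have hmem' : u ∈ cl H v := by
        unfold cl
        rw [mem_insert, SimpleGraph.mem_neighborFinset]
        exact Or.inr huv.symm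
      by_cases hu : cl H u ∈ CC H Δ
      · have h1 : cl H v = cl H u := cl_eq H hd hu hmem
        have hv : cl H v ∈ CC H Δ := by rw [h1]; exact hu
        rw [hf1 u hu, hf1 v hv]
        show (CC H Δ).equivFin ⟨cl H u, hu⟩ = (CC H Δ).equivFin ⟨cl H v, hv⟩ ∧
          pos ⟨cl H u, hu⟩ u ≠ pos ⟨cl H v, hv⟩ v
        refine ⟨congrArg _ (Subtype.ext h1.symm), fun h => ?_⟩
        exact huv.ne (key u v hu hv h1.symm h)
      · have hv : cl H v ∉ CC H Δ := by
          intro hv
          have h1 : cl H u = cl H v := cl_eq H hd hv hmem'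
          rw [h1] at hu
          exact hu hv
        rw [hf2 u hu, hf2 v hv]
        show H.Adj (g (e2 ⟨u, (mem_V2 H).2 hu⟩)) (g (e2 ⟨v, (mem_V2 H).2 hv⟩))
        have h2 : ∀ x, g (e2 x) = x.1 := fun x => by
          show ((e2.symm (e2 x)).1) = x.1
          rw [Equiv.symm_apply_apply]
        rw [h2, h2]
        exact huv
    exact ⟨⟨⟨f, fun {u v} h => hadj u v h⟩, hinj⟩⟩

end Pool.Agent.Y430.KF
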